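import Pool.Agent.Helper52.EK.Defs

/-!
E1d: the comparison function `kap` is close to `1` in the mean square.
-/

set_option autoImplicit false

open Complex MeasureTheory Metric Set
open scoped Real ComplexConjugate

namespace Pool.Agent.Helper46.EK

open Pool.Agent.Helper52.EK

lemma tau_pos {a : ℝ} (h0 : 0 < a) (h1 : a < 1) : 0 < tau a := by
  unfold tau
  exact div_pos (by linarith) (by linarith)

lemma norm_exp_pt (ξ η : ℝ) : ‖Complex.exp (pt ξ η)‖ = Real.exp ξ := by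
  rw [Complex.norm_exp]
  simp [pt]

lemma kap_sub_one {τ : ℂ} {Z : ℂ} (h1 : Z ^ 2 + τ ^ 2 ≠ 0) (h2 : Z ^ 2 + 1 ≠ 0) :
    Z ^ 2 * (1 - τ ^ 2) / ((Z ^ 2 + τ ^ 2) * (Z ^ 2 + 1)) - 1 =
      -((Z ^ 2) ^ 2 + 2 * τ ^ 2 * Z ^ 2 + τ ^ 2) / ((Z ^ 2 + τ ^ 2) * (Z ^ 2 + 1)) := by
  field_simp
  ring

lemma exp_neg_two_lt : Real.exp (-2) < 1 / 4 := by
  have h1 : (2.7182818283 : ℝ) < Real.exp 1 := Real.exp_one_gt_d9
  have h2 : Real.exp 2 = Real.exp 1 * Real.exp 1 := by rw [← Real.exp_add]; norm_num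
  have h3 : (4 : ℝ) < Real.exp 2 := by rw [h2]; nlinarith
  rw [Real.exp_neg, one_div]
  exact inv_strictAnti₀ (by norm_num) h3

lemma kap_bound {a : ℝ} (h0 : 0 < a) (h1 : a < 1) {ξ η : ℝ} (hx : Real.log (tau a) + 1 ≤ ξ)
    (hx2 : ξ ≤ -1) :
    ‖kap a (pt ξ η) - 1‖ ^ 2 ≤ 144 * Real.exp ξ + 16 * (tau a * Real.exp (-ξ)) := by
  have hτ : 0 < tau a := tau_pos h0 h1
  set τ : ℝ := tau a with hτdef
  set Z : ℂ := Complex.exp (pt ξ η) with hZ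
  set r : ℝ := Real.exp ξ with hr
  have hnZ : ‖Z‖ = r := norm_exp_pt ξ η
  have hr0 : 0 < r := Real.exp_pos _
  have he2 := exp_neg_two_lt
  -- `4 τ² ≤ r²`, `4 r² ≤ 1`
  have hτr : τ ^ 2 ≤ r ^ 2 / 4 := by
    have h2 : τ * Real.exp 1 ≤ r := by
      have : Real.exp (Real.log τ + 1) ≤ Real.exp ξ := Real.exp_le_exp.2 hx
      rwa [Real.exp_add, Real.exp_log hτ] at this
    have h3 : (2.7182818283 : ℝ) < Real.exp 1 := Real.exp_one_gt_d9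
    have h4 : τ * 2 ≤ r := le_trans (by nlinarith) h2
    nlinarith
  have hr2 : r ^ 2 ≤ 1 / 4 := by
    have h2 : r ^ 2 = Real.exp (2 * ξ) := by
      rw [hr, ← Real.exp_nat_mul]; norm_num
    have h3 : Real.exp (2 * ξ) ≤ Real.exp (-2) := Real.exp_le_exp.2 (by linarith)
    linarith
  have hr1 : r ≤ 1 / 2 := by nlinarith
  have hτr1 : τ ≤ r / 2 := by
    have : τ ^ 2 ≤ (r / 2) ^ 2 := by nlinarith
    exact (sq_le_sq₀ hτ.le (by positivity)).1 this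
  have hA : r ^ 2 * (3 / 4) ≤ ‖Z ^ 2 + (τ : ℂ) ^ 2‖ := by
    have h2 : ‖Z ^ 2‖ - ‖(τ : ℂ) ^ 2‖ ≤ ‖Z ^ 2 + (τ : ℂ) ^ 2‖ := by
      have := norm_sub_norm_le (Z ^ 2) (-(τ : ℂ) ^ 2)
      rw [norm_neg, sub_neg_eq_add] at this
      exact this
    rw [norm_pow, norm_pow, hnZ, Complex.norm_real, Real.norm_eq_abs, sq_abs] at h2
    nlinarith
  have hB : (3 / 4 : ℝ) ≤ ‖Z ^ 2 + 1‖ := by
    have h2 : ‖(1 : ℂ)‖ - ‖Z ^ 2‖ ≤ ‖Z ^ 2 + 1‖ := by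
      have := norm_sub_norm_le (1 : ℂ) (-(Z ^ 2))
      rw [norm_neg, sub_neg_eq_add, add_comm (1 : ℂ)] at this
      exact this
    rw [norm_one, norm_pow, hnZ] at h2
    linarith
  have hA0 : Z ^ 2 + (τ : ℂ) ^ 2 ≠ 0 := by
    intro h
    rw [h, norm_zero] at hA
    nlinarith
  have hB0 : Z ^ 2 + 1 ≠ 0 := by
    intro h
    rw [h, norm_zero] at hB
    linarith
  have hk : kap a (pt ξ η) - 1 =
      -((Z ^ 2) ^ 2 + 2 * (τ : ℂ) ^ 2 * Z ^ 2 + (τ : ℂ) ^ 2) /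
        ((Z ^ 2 + (τ : ℂ) ^ 2) * (Z ^ 2 + 1)) := by
    rw [← kap_sub_one hA0 hB0]
    rfl
  have hnum : ‖-((Z ^ 2) ^ 2 + 2 * (τ : ℂ) ^ 2 * Z ^ 2 + (τ : ℂ) ^ 2)‖ ≤
      r ^ 4 + 2 * τ ^ 2 * r ^ 2 + τ ^ 2 := by
    rw [norm_neg]
    refine (norm_add_le _ _).trans ?_
    refine add_le_add ((norm_add_le _ _).trans (add_le_add ?_ ?_)) ?_
    · rw [norm_pow, norm_pow, hnZ]; exact le_of_eq (by ring)
    · rw [norm_mul, norm_mul, norm_pow, norm_pow, hnZ, Complex.norm_real, Real.norm_eq_abs, sq_abs]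
      simp
    · rw [norm_pow, Complex.norm_real, Real.norm_eq_abs, sq_abs]
  have hden : r ^ 2 * (9 / 16) ≤ ‖(Z ^ 2 + (τ : ℂ) ^ 2) * (Z ^ 2 + 1)‖ := by
    rw [norm_mul]
    calc r ^ 2 * (9 / 16) = (r ^ 2 * (3 / 4)) * (3 / 4) := by ring
      _ ≤ _ := mul_le_mul hA hB (by norm_num) (norm_nonneg _)
  have hden0 : 0 < r ^ 2 * (9 / 16) := by positivity
  have hmain : ‖kap a (pt ξ η) - 1‖ ≤ 2 * (r ^ 2 + 2 * τ ^ 2 + τ ^ 2 / r ^ 2) := by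
    rw [hk, norm_div]
    calc _ ≤ (r ^ 4 + 2 * τ ^ 2 * r ^ 2 + τ ^ 2) / (r ^ 2 * (9 / 16)) :=
          div_le_div₀ (by positivity) hnum hden0 hden
      _ = 16 / 9 * (r ^ 2 + 2 * τ ^ 2 + τ ^ 2 / r ^ 2) := by field_simp
      _ ≤ _ := by
          have : 0 ≤ r ^ 2 + 2 * τ ^ 2 + τ ^ 2 / r ^ 2 := by positivity
          nlinarith
  -- crude form
  have hq : τ ^ 2 / r ^ 2 = (τ / r) ^ 2 := by rw [div_pow]
  have hq0 : 0 < τ / r := div_pos hτ hr0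
  have hq1 : τ / r ≤ 1 / 2 := by
    rw [div_le_iff₀ hr0]; linarith
  have h3 : ‖kap a (pt ξ η) - 1‖ ≤ 3 * r ^ 2 + 2 * (τ / r) ^ 2 := by
    refine hmain.trans ?_
    rw [hq]
    nlinarith
  have h4 : ‖kap a (pt ξ η) - 1‖ ^ 2 ≤ (3 * r ^ 2 + 2 * (τ / r) ^ 2) ^ 2 :=
    pow_le_pow_left₀ (norm_nonneg _) h3 2
  have h5 : (3 * r ^ 2 + 2 * (τ / r) ^ 2) ^ 2 ≤ 144 * r + 16 * (τ / r) := by
    have h6 : 3 * r ^ 2 + 2 * (τ / r) ^ 2 ≤ 3 * r + 2 * (τ / r) := by nlinarith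
    have h7 : 3 * r + 2 * (τ / r) ≤ 3 := by linarith
    have h8 : 0 ≤ 3 * r ^ 2 + 2 * (τ / r) ^ 2 := by positivity
    nlinarith
  have h9 : τ / r = τ * Real.exp (-ξ) := by
    rw [Real.exp_neg, hr]; rfl
  rw [← h9]
  exact h4.trans h5

/-- E1d -/
theorem E1d : ∃ C : ℝ, ∀ a : ℝ, 0 < a → a < 1 → ∀ x₁ x₂ : ℝ, Real.log (tau a) + 1 ≤ x₁ →
    x₁ ≤ x₂ → x₂ ≤ -1 → II x₁ x₂ (fun ξ η => ‖kap a (pt ξ η) - 1‖ ^ 2) ≤ C := by
  refine ⟨160 * π, fun a h0 h1 x₁ x₂ hx1 h12 hx2 => ?_⟩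
  have hτ : 0 < tau a := tau_pos h0 h1
  set τ : ℝ := tau a with hτdef
  have hin : ∀ ξ ∈ Ioc x₁ x₂, ‖∫ η in (0:ℝ)..π, ‖kap a (pt ξ η) - 1‖ ^ 2‖ ≤
      (144 * Real.exp ξ + 16 * (τ * Real.exp (-ξ))) * π := by
    intro ξ hξ
    have hb : ∀ η ∈ Set.uIoc (0:ℝ) π, ‖(‖kap a (pt ξ η) - 1‖ ^ 2 : ℝ)‖ ≤
        144 * Real.exp ξ + 16 * (τ * Real.exp (-ξ)) := by
      intro η _
      rw [Real.norm_of_nonneg (by positivity)]
      exact kap_bound h0 h1 (hx1.trans hξ.1.le) (hξ.2.trans hx2)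
    have := intervalIntegral.norm_integral_le_of_norm_le_const hb
    rwa [sub_zero, abs_of_pos Real.pi_pos] at this
  have hint : IntervalIntegrable
      (fun ξ => (144 * Real.exp ξ + 16 * (τ * Real.exp (-ξ))) * π) volume x₁ x₂ := by
    apply Continuous.intervalIntegrable
    fun_prop
  have h2 := intervalIntegral.norm_integral_le_of_norm_le h12
    (Filter.Eventually.of_forall fun ξ hξ => hin ξ hξ) hint
  have h3 : II x₁ x₂ (fun ξ η => ‖kap a (pt ξ η) - 1‖ ^ 2) ≤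
      ∫ ξ in x₁..x₂, (144 * Real.exp ξ + 16 * (τ * Real.exp (-ξ))) * π :=
    (le_abs_self _).trans h2
  refine h3.trans ?_
  have h4 : ∫ ξ in x₁..x₂, (144 * Real.exp ξ + 16 * (τ * Real.exp (-ξ))) * π =
      ((144 * Real.exp x₂ - 16 * (τ * Real.exp (-x₂))) * π) -
      ((144 * Real.exp x₁ - 16 * (τ * Real.exp (-x₁))) * π) := by
    apply intervalIntegral.integral_eq_sub_of_hasDerivAt (f := fun ξ =>
      (144 * Real.exp ξ - 16 * (τ * Real.exp (-ξ))) * π)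
    · intro ξ _
      have e1 : HasDerivAt (fun ξ : ℝ => Real.exp ξ) (Real.exp ξ) ξ := Real.hasDerivAt_exp ξ
      have e2 : HasDerivAt (fun ξ : ℝ => Real.exp (-ξ)) (Real.exp (-ξ) * (-1)) ξ :=
        (hasDerivAt_neg ξ).exp
      have e3 := ((e1.const_mul 144).sub ((e2.const_mul τ).const_mul 16)).mul_const π
      exact e3.congr_deriv (by ring)
    · exact hint
  rw [h4]
  have h5 : Real.exp x₂ ≤ 1 := Real.exp_le_one_iff.2 (by linarith)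
  have h6 : τ * Real.exp (-x₁) ≤ 1 := by
    have : Real.exp (-x₁) ≤ Real.exp (-(Real.log τ)) := Real.exp_le_exp.2 (by linarith)
    rw [Real.exp_neg (Real.log τ), Real.exp_log hτ] at this
    calc τ * Real.exp (-x₁) ≤ τ * τ⁻¹ := mul_le_mul_of_nonneg_left this hτ.le
      _ = 1 := mul_inv_cancel₀ hτ.ne'
  have h7 : 0 < Real.exp x₁ := Real.exp_pos _
  have h8 : 0 < τ * Real.exp (-x₂) := mul_pos hτ (Real.exp_pos _)
  have hπ := Real.pi_pos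
  nlinarith

end Pool.Agent.Helper46.EK
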